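import Mathlib
import Pool.Agent.H220.K.Stm

/-! # `S_hol`: locally uniform limits of holomorphic maps are holomorphic -/

set_option autoImplicit false

open Set Filter Topology Metric

namespace Pool.Agent.H922.K

open Pool.Agent.H220.K

/-- the Cauchy estimate for the derivative -/
theorem fderiv_le_of_ball {E F : Type*} [NormedAddCommGroup E] [NormedSpace ℂ E]
    [NormedAddCommGroup F] [NormedSpace ℂ F] {h : E → F} (hh : Differentiable ℂ h)
    {z : E} {C : ℝ} (hC : ∀ x ∈ closedBall z 1, ‖h x‖ ≤ C) : ‖fderiv ℂ h z‖ ≤ C := by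
  have hC0 : 0 ≤ C := (norm_nonneg _).trans (hC z (mem_closedBall_self zero_le_one))
  refine ContinuousLinearMap.opNorm_le_bound _ hC0 fun v => ?_
  by_cases hv : v = 0
  · rw [hv, map_zero, norm_zero, norm_zero, mul_zero]
  · have hv0 : 0 < ‖v‖ := norm_pos_iff.2 hv
    have hl : ∀ ζ : ℂ, HasDerivAt (fun ζ : ℂ => z + ζ • v) v ζ := by
      intro ζ
      have h1 := ((hasDerivAt_id ζ).smul_const v).const_add z
      rwa [one_smul] at h1
    have hd : ∀ ζ : ℂ, HasDerivAt (fun ζ : ℂ => h (z + ζ • v)) (fderiv ℂ h (z + ζ • v) v) ζ :=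
      fun ζ => ((hh _).hasFDerivAt).comp_hasDerivAt ζ (hl ζ)
    have h0 : deriv (fun ζ : ℂ => h (z + ζ • v)) 0 = fderiv ℂ h z v := by
      have h1 := (hd 0).deriv
      rwa [zero_smul, add_zero] at h1
    have hdiff : Differentiable ℂ (fun ζ : ℂ => h (z + ζ • v)) :=
      fun ζ => (hd ζ).differentiableAt
    have h2 := Complex.norm_deriv_le_of_forall_mem_sphere_norm_le (c := (0 : ℂ)) (R := 1 / ‖v‖)
      (C := C) (by positivity) hdiff.diffContOnCl (fun ζ hζ => by
        apply hC
        rw [mem_closedBall, dist_eq_norm, add_sub_cancel_left, norm_smul]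
        rw [mem_sphere, dist_zero_right] at hζ
        rw [hζ, one_div, inv_mul_cancel₀ hv0.ne'])
    rw [h0, div_div_eq_mul_div, div_one] at h2
    exact h2

/-- locally uniform limits of holomorphic maps are holomorphic -/
theorem differentiable_of_unif {E F : Type*} [NormedAddCommGroup E] [NormedSpace ℂ E]
    [NormedAddCommGroup F] [NormedSpace ℂ F] [CompleteSpace F] {f : ℕ → E → F} {g : E → F}
    (hf : ∀ n, Differentiable ℂ (f n))
    (hg : ∀ R : ℝ, TendstoUniformlyOn f g atTop (closedBall 0 R)) : Differentiable ℂ g := by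
  have hcau : ∀ R : ℝ, UniformCauchySeqOn (fun n => fderiv ℂ (f n)) atTop (ball (0 : E) R) := by
    intro R
    rw [Metric.uniformCauchySeqOn_iff]
    intro ε hε
    obtain ⟨N, hN⟩ := Metric.uniformCauchySeqOn_iff.1 (hg (R + 1)).uniformCauchySeqOn (ε / 2)
      (half_pos hε)
    refine ⟨N, fun m hm n hn x hx => ?_⟩
    rw [dist_eq_norm, ← fderiv_sub (hf m x) (hf n x)]
    refine lt_of_le_of_lt (fderiv_le_of_ball ((hf m).sub (hf n)) (C := ε / 2) ?_)
      (half_lt_self hε)
    intro y hy
    have h1 := hN m hm n hn y (by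
      rw [mem_closedBall] at hy ⊢
      rw [mem_ball] at hx
      calc dist y 0 ≤ dist y x + dist x 0 := dist_triangle _ _ _
        _ ≤ R + 1 := by linarith)
    rw [dist_eq_norm] at h1
    exact h1.le
  have hlim : ∀ x : E, ∃ l : E →L[ℂ] F, Tendsto (fun n => fderiv ℂ (f n) x) atTop (𝓝 l) := by
    intro x
    have hx : x ∈ ball (0 : E) (‖x‖ + 1) := by
      rw [mem_ball, dist_zero_right]
      linarith
    exact cauchySeq_tendsto_of_complete ((hcau (‖x‖ + 1)).cauchySeq hx)
  choose g' hg' using hlim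
  intro x
  have hx : x ∈ ball (0 : E) (‖x‖ + 1) := by
    rw [mem_ball, dist_zero_right]
    linarith
  have h1 : TendstoUniformlyOn (fun n => fderiv ℂ (f n)) g' atTop (ball (0 : E) (‖x‖ + 1)) :=
    (hcau (‖x‖ + 1)).tendstoUniformlyOn_of_tendsto fun y _ => hg' y
  have h2 : HasFDerivAt g (g' x) x :=
    hasFDerivAt_of_tendstoUniformlyOn isOpen_ball h1 (fun n y _ => (hf n y).hasFDerivAt)
      (fun y hy => (hg (‖x‖ + 1)).tendsto_at (ball_subset_closedBall hy)) hx
  exact h2.differentiableAt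

theorem s_hol : S_hol := fun _ _ hf hg => differentiable_of_unif hf hg

end Pool.Agent.H922.K
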